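import Pool.Agent.P8H12.JN.Stm

set_option autoImplicit false

/-! Packages DLP and PRD of project JN. -/

namespace Pool.Agent.P8H10.JN

open Finset Filter Topology Pool.Agent.P8H12.JN

/-- the residue classes of type `x` -/
def SS (d p m : ℕ) (x : ℕ × ℕ) : Set (Fin d → ZMod (p ^ m)) :=
  {c | ∃ y : Fin d → ℤ, (∀ i, ((y i : ℤ) : ZMod (p ^ m)) = c i) ∧ Typ p x (co y)}

theorem co_congr {p m : ℕ} {d : ℕ} {y y' : Fin d → ℤ}
    (h : ∀ i, ((y i : ℤ) : ZMod (p ^ m)) = ((y' i : ℤ) : ZMod (p ^ m))) (i : Fin (d + 1)) :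
    (p : ℤ) ^ m ∣ co y i - co y' i := by
  have h' : ∀ i, (p : ℤ) ^ m ∣ y i - y' i := by
    intro i
    have := (ZMod.intCast_eq_intCast_iff_dvd_sub _ _ _).mp (h i).symm
    push_cast at this
    exact this
  refine Fin.lastCases ?_ (fun j => ?_) i
  · simp only [co, Fin.snoc_last]
    have : -∑ i, y i - -∑ i, y' i = -∑ i, (y i - y' i) := by
      rw [Finset.sum_sub_distrib]; ring
    rw [this, dvd_neg]
    exact Finset.dvd_sum fun i _ => h' i
  · simpa [co] using h' j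

theorem SS_disj (hPER : S_PER) {d p m : ℕ} (hp : p.Prime) {x x' : ℕ × ℕ}
    (hx : x.1 + 2 ≤ m) (h : x ≠ x') : Disjoint (SS d p m x) (SS d p m x') := by
  rw [Set.disjoint_left]
  rintro c ⟨y, hy, ht⟩ ⟨y', hy', ht'⟩
  apply h
  refine (hPER (d + 1) p hp).2 x x' (co y') ?_ ht'
  exact (hPER (d + 1) p hp).1 x m hx _ _ (co_congr fun i => (hy i).trans (hy' i).symm) ht

theorem sum_le (hLOC : S_LOC) (hPER : S_PER) {d p : ℕ} (hd : 2 ≤ d) (hp : p.Prime)
    (E : Finset (ℕ × ℕ)) : ∑ x ∈ E, dl (d + 1) p x ≤ 1 := by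
  classical
  have : Fact p.Prime := ⟨hp⟩
  set m : ℕ := E.sup fun x => x.1 + 2 with hm
  have hmx : ∀ x ∈ E, x.1 + 2 ≤ m := fun x hx => Finset.le_sup (f := fun x : ℕ × ℕ => x.1 + 2) hx
  have hq : (0 : ℝ) < ((p : ℝ) ^ m) ^ d := by
    have : (0 : ℝ) < p := by exact_mod_cast hp.pos
    positivity
  have h1 : ∑ x ∈ E, ((SS d p m x).ncard : ℝ) ≤ ((p : ℝ) ^ m) ^ d := by
    have h2 : ∑ x ∈ E, (SS d p m x).ncard ≤ (p ^ m) ^ d := by
      have h3 : ∀ x ∈ E, (SS d p m x).ncard = (SS d p m x).toFinset.card := fun x _ => by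
        rw [Set.ncard_eq_toFinset_card']
      rw [Finset.sum_congr rfl h3, ← Finset.card_biUnion]
      · refine (Finset.card_le_univ _).trans ?_
        rw [Fintype.card_fun, ZMod.card, Fintype.card_fin]
      · intro x hx x' hx' hne
        rw [Function.onFun, Set.disjoint_toFinset]
        exact SS_disj hPER hp (hmx x hx) hne
    exact_mod_cast h2
  have h4 : ∀ x ∈ E, ((SS d p m x).ncard : ℝ) = dl (d + 1) p x * ((p : ℝ) ^ m) ^ d := fun x hx =>
    hLOC d p hd hp x m (hmx x hx)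
  rw [Finset.sum_congr rfl h4, ← Finset.sum_mul] at h1
  by_contra h
  push Not at h
  have := mul_lt_mul_of_pos_right h hq
  linarith

theorem dl_nonneg (hLOC : S_LOC) {d p : ℕ} (hd : 2 ≤ d) (hp : p.Prime) (x : ℕ × ℕ) :
    0 ≤ dl (d + 1) p x := by
  have h := hLOC d p hd hp x (x.1 + 2) le_rfl
  have hq : (0 : ℝ) < ((p : ℝ) ^ (x.1 + 2)) ^ d := by
    have : (0 : ℝ) < p := by exact_mod_cast hp.pos
    positivity
  have h0 : 0 ≤ dl (d + 1) p x * ((p : ℝ) ^ (x.1 + 2)) ^ d := by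
    rw [← h]; positivity
  exact nonneg_of_mul_nonneg_left h0 hq

theorem uu_nonneg {p : ℝ} (hp : 2 ≤ p) {j : ℕ} (hj : 1 ≤ j) : 0 ≤ uu p j := by
  unfold uu
  have hp0 : 0 < p := by linarith
  refine div_nonneg ?_ (pow_nonneg hp0.le _)
  have h1 : p - 1 ≤ (p - 1) ^ j := by
    have := pow_le_pow_right₀ (show (1 : ℝ) ≤ p - 1 by linarith) hj
    rwa [pow_one] at this
  rcases neg_one_pow_eq_or ℝ j with h | h <;> rw [h] <;> linarith

theorem uu_pos {p : ℝ} (hp : 3 ≤ p) {j : ℕ} (hj : 2 ≤ j) : 0 < uu p j := by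
  unfold uu
  have hp0 : 0 < p := by linarith
  refine div_pos ?_ (pow_pos hp0 _)
  have h1 : p - 1 < (p - 1) ^ j := by
    have := pow_lt_pow_right₀ (show (1 : ℝ) < p - 1 by linarith) (show 1 < j by omega)
    rwa [pow_one] at this
  rcases neg_one_pow_eq_or ℝ j with h | h <;> rw [h] <;> linarith

theorem uu_two {j : ℕ} (hj : Even j) : 0 < uu 2 j := by
  unfold uu
  rw [hj.neg_one_pow]
  norm_num

theorem dl_zero (n : ℕ) (p : ℝ) : dl n p (0, 0) = uu p n + n * (1 - 1 / p) / p * uu p (n - 1) := by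
  unfold dl; simp

theorem dl_pos {n p : ℕ} (hn : 3 ≤ n) (hp : p.Prime) : 0 < dl n p (0, 0) := by
  rw [dl_zero]
  have hp2 : (2 : ℝ) ≤ p := by exact_mod_cast hp.two_le
  have hn0 : (0 : ℝ) < n := by exact_mod_cast (by omega : 0 < n)
  have h1 : (0 : ℝ) < n * (1 - 1 / p) / p := by
    have : (1 : ℝ) / p ≤ 1 / 2 := one_div_le_one_div_of_le (by norm_num) hp2
    have : (0 : ℝ) < 1 - 1 / p := by linarith
    positivity
  rcases hp.eq_two_or_odd' with rfl | hodd
  · rcases Nat.even_or_odd n with he | ho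
    · have h2 := uu_two he
      have h3 := uu_nonneg (p := 2) le_rfl (show 1 ≤ n - 1 by omega)
      push_cast at h1 ⊢
      have := mul_nonneg h1.le h3
      linarith
    · have he : Even (n - 1) := Nat.Odd.sub_odd ho odd_one
      have h2 := uu_two he
      have h3 := uu_nonneg (p := 2) le_rfl (show 1 ≤ n by omega)
      push_cast at h1 ⊢
      have := mul_pos h1 h2
      linarith
  · have hp3 : (3 : ℝ) ≤ p := by
      have : 3 ≤ p := by
        rcases hodd with ⟨k, hk⟩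
        have := hp.two_le
        omega
      exact_mod_cast this
    have h2 := uu_pos hp3 (show 2 ≤ n by omega)
    have h3 := uu_nonneg hp2 (show 1 ≤ n - 1 by omega)
    have := mul_nonneg h1.le h3
    linarith

theorem uu_ge {p : ℝ} (hp : 2 ≤ p) {j : ℕ} (hj : 1 ≤ j) : 1 - j / p - 1 / p ^ (j - 1) ≤ uu p j := by
  unfold uu
  have hp0 : 0 < p := by linarith
  have h1 : 1 + (j : ℝ) * (-(1 / p)) ≤ (1 + -(1 / p)) ^ j := by
    apply one_add_mul_le_pow
    have : 1 / p ≤ 1 / 2 := one_div_le_one_div_of_le (by norm_num) hp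
    linarith
  have h2 : (1 + -(1 / p)) ^ j = (p - 1) ^ j / p ^ j := by
    rw [← div_pow]; congr 1; field_simp; ring
  have h3 : (1 : ℝ) / p ^ (j - 1) = p / p ^ j := by
    rw [div_eq_div_iff (by positivity) (by positivity), one_mul, ← pow_succ']
    congr 1; omega
  have h4 : -(p / p ^ j) ≤ (-1) ^ j * (p - 1) / p ^ j := by
    rw [← neg_div]
    apply div_le_div_of_nonneg_right _ (by positivity)
    rcases neg_one_pow_eq_or ℝ j with h | h <;> rw [h] <;> linarith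
  rw [add_div, h3]
  rw [h2] at h1
  have h5 : (j : ℝ) * (-(1 / p)) = -(j / p) := by ring
  rw [h5] at h1
  linarith

theorem dl_ge {n p : ℕ} (hn : 3 ≤ n) (hp : p.Prime) :
    1 - (1 + n + n ^ 2) / (p : ℝ) ^ 2 ≤ dl n p (0, 0) := by
  rw [dl_zero]
  have hp2 : (2 : ℝ) ≤ p := by exact_mod_cast hp.two_le
  have hp0 : (0 : ℝ) < p := by linarith
  have hn0 : (0 : ℝ) < n := by exact_mod_cast (by omega : 0 < n)
  have h1 := uu_ge hp2 (show 1 ≤ n by omega)
  have h2 := uu_ge hp2 (show 1 ≤ n - 1 by omega)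
  have h3 : (1 : ℝ) / (p : ℝ) ^ (n - 1) ≤ 1 / (p : ℝ) ^ 2 :=
    one_div_le_one_div_of_le (by positivity) (pow_le_pow_right₀ (by linarith) (by omega))
  have h4 : (1 : ℝ) / (p : ℝ) ^ (n - 1 - 1) ≤ 1 / p := by
    have h8 := pow_le_pow_right₀ (show (1 : ℝ) ≤ p by linarith) (show 1 ≤ n - 1 - 1 by omega)
    rw [pow_one] at h8
    exact one_div_le_one_div_of_le hp0 h8
  have h5 : ((n - 1 : ℕ) : ℝ) = (n : ℝ) - 1 := by rw [Nat.cast_sub (by omega)]; simp
  rw [h5] at h2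
  set u : ℝ := 1 / p with hu
  have hu0 : 0 < u := by positivity
  have hu1 : u ≤ 1 / 2 := one_div_le_one_div_of_le (by norm_num) hp2
  have e1 : (n : ℝ) / p = n * u := by rw [hu]; ring
  have e2 : ((n : ℝ) - 1) / p = n * u - u := by rw [hu]; ring
  have e3 : (1 : ℝ) / (p : ℝ) ^ 2 = u ^ 2 := by rw [hu]; ring
  have e4 : (1 + (n : ℝ) + n ^ 2) / (p : ℝ) ^ 2 = (1 + n + n ^ 2) * u ^ 2 := by rw [hu]; ring
  have e5 : (n : ℝ) * (1 - u) / p = n * (1 - u) * u := by rw [hu]; ring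
  rw [e1] at h1
  rw [e2] at h2
  rw [e3] at h3
  rw [e4, e5]
  have h6 : 1 - n * u - u ^ 2 ≤ uu p n := by linarith
  have h7 : 1 - n * u ≤ uu p (n - 1) := by linarith
  have h8 : 0 ≤ (n : ℝ) * (1 - u) * u := by
    have : 0 ≤ 1 - u := by linarith
    positivity
  have h9 := mul_le_mul_of_nonneg_left h7 h8
  have h10 : 0 ≤ (n : ℝ) ^ 2 * u ^ 3 := by positivity
  nlinarith

theorem dlp (hLOC : S_LOC) (hPER : S_PER) : S_DLP := by
  intro n hn
  obtain ⟨d, rfl⟩ : ∃ d, n = d + 1 := ⟨n - 1, by omega⟩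
  have hd : 2 ≤ d := by omega
  refine ⟨fun p hp => ⟨fun x => dl_nonneg hLOC hd hp x, fun E => sum_le hLOC hPER hd hp E,
    dl_pos hn hp⟩, 1 + ((d + 1 : ℕ) : ℝ) + ((d + 1 : ℕ) : ℝ) ^ 2, by positivity,
    fun p hp => dl_ge hn hp⟩

/-! ### PRD -/

theorem prd (hDLP : S_DLP) : S_PRD := by
  intro n hn E ⟨N, hN⟩
  obtain ⟨h1, C, hC, h2⟩ := hDLP n hn
  set g : Nat.Primes → ℝ := fun p => ∑ x ∈ E p, dl n p x with hg
  have hg0 : ∀ p, 0 ≤ g p := fun p => Finset.sum_nonneg fun x _ => (h1 p p.2).1 x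
  have hg1 : ∀ p, g p ≤ 1 := fun p => (h1 p p.2).2.1 (E p)
  have hg2 : ∀ p : Nat.Primes, N ≤ (p : ℕ) → 1 - C / (p : ℝ) ^ 2 ≤ g p := by
    intro p hp
    refine (h2 p p.2).trans ?_
    exact Finset.single_le_sum (f := fun x => dl n p x) (fun x _ => (h1 p p.2).1 x) (hN p hp)
  have hsum : Summable fun p : Nat.Primes => ‖g p - 1‖ := by
    have hs : Summable fun p : Nat.Primes => (C + (N : ℝ) ^ 2) / ((p : ℕ) : ℝ) ^ 2 := by
      have h3 : Summable fun k : ℕ => (C + (N : ℝ) ^ 2) / (k : ℝ) ^ 2 := by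
        simpa [div_eq_mul_inv] using (Real.summable_nat_pow_inv.mpr one_lt_two).mul_left _
      exact h3.comp_injective Nat.Primes.coe_nat_injective
    refine Summable.of_nonneg_of_le (fun _ => norm_nonneg _) (fun p => ?_) hs
    have hp0 : (0 : ℝ) < ((p : ℕ) : ℝ) := by exact_mod_cast p.2.pos
    rw [Real.norm_eq_abs, abs_sub_comm, abs_of_nonneg (by linarith [hg1 p])]
    by_cases hp : N ≤ (p : ℕ)
    · have := hg2 p hp
      have h4 : C / ((p : ℕ) : ℝ) ^ 2 ≤ (C + (N : ℝ) ^ 2) / ((p : ℕ) : ℝ) ^ 2 :=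
        div_le_div_of_nonneg_right (by linarith [sq_nonneg (N : ℝ)]) (by positivity)
      linarith
    · have h5 : ((p : ℕ) : ℝ) ≤ N := by exact_mod_cast (not_le.mp hp).le
      have h6 : 1 ≤ (C + (N : ℝ) ^ 2) / ((p : ℕ) : ℝ) ^ 2 := by
        rw [le_div_iff₀ (by positivity), one_mul]
        have : ((p : ℕ) : ℝ) ^ 2 ≤ (N : ℝ) ^ 2 := pow_le_pow_left₀ hp0.le h5 2
        linarith
      linarith [hg0 p]
  have hmul : Multipliable g := by
    have := multipliable_one_add_of_summable hsum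
    simpa using this
  have hprod : HasProd g (rhoE n E) := hmul.hasProd
  refine ⟨hprod, ?_, ?_, ?_⟩
  · exact ge_of_tendsto' hprod (fun s => Finset.prod_nonneg fun p _ => hg0 p)
  · have h3 : HasProd ((Set.ofPred Nat.Prime).mulIndicator fun p : ℕ => ∑ x ∈ E p, dl n p x)
        (rhoE n E) := (hasProd_subtype_iff_mulIndicator).mp hprod
    have h4 := h3.tendsto_prod_nat
    refine h4.congr fun M => ?_
    rw [Nat.primesBelow, Finset.prod_filter]
    refine Finset.prod_congr rfl fun p _ => ?_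
    rw [Set.mulIndicator_apply]
    rfl
  · intro hpos
    have hlog : Summable (Real.log ∘ g) := by
      have h5 : Summable fun p => g p - 1 := hsum.of_norm
      have := Real.summable_log_one_add_of_summable h5
      simpa [Function.comp_def] using this
    have := Real.rexp_tsum_eq_tprod (f := g) (fun p => hpos p p.2) hlog
    change 0 < ∏' p : Nat.Primes, g p
    rw [← this]
    exact Real.exp_pos _

end Pool.Agent.P8H10.JN
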