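import Pool.Agent.P8H12.JN.Stm

set_option autoImplicit false

/-! Packages PER and LOC of project JN. -/

namespace Pool.Agent.P8H10.JN

open Finset Pool.Agent.P8H12.JN

/-! ### PER -/

theorem ord_le {p : ℕ} (z : ℤ) {a b : ℕ} (ha : (p : ℤ) ^ a ∣ z) (hb : ¬ (p : ℤ) ^ (b + 1) ∣ z) :
    a ≤ b := by
  by_contra h
  exact hb ((pow_dvd_pow _ (by omega)).trans ha)

theorem per : S_PER := by
  intro n p hp
  refine ⟨?_, ?_⟩
  · rintro x m hm z z' hz ⟨a, ha, h0, he, hf⟩
    refine ⟨a, fun i => ?_, h0, he, hf⟩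
    have hai : a i + 1 ≤ m := by
      have : a i - 1 ≤ x.1 := by
        rw [← he]
        exact Finset.single_le_sum (f := fun i => a i - 1) (fun _ _ => Nat.zero_le _) (mem_univ i)
      omega
    have h1 : (p : ℤ) ^ (a i + 1) ∣ z i - z' i := (pow_dvd_pow _ hai).trans (hz i)
    have h2 : (p : ℤ) ^ (a i) ∣ z i - z' i := (pow_dvd_pow _ (by omega)).trans (hz i)
    refine ⟨?_, ?_⟩
    · have := dvd_sub (ha i).1 h2
      simpa using this
    · intro h
      apply (ha i).2
      have := dvd_add h1 h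
      simpa using this
  · rintro x x' z ⟨a, ha, h0, he, hf⟩ ⟨b, hb, h0', he', hf'⟩
    have hab : a = b := funext fun i =>
      le_antisymm (ord_le _ (ha i).1 (hb i).2) (ord_le _ (hb i).1 (ha i).2)
    subst hab
    exact Prod.ext (he.symm.trans he') (hf.symm.trans hf')

/-! ### LOC -/

section
variable {p m : ℕ} [hp : Fact p.Prime]

/-- the residue class `r` has order exactly `a` (and is not zero) -/
def Ex (a : ℕ) (r : ZMod (p ^ m)) : Prop := p ^ a ∣ r.val ∧ ¬ p ^ (a + 1) ∣ r.val

instance (a : ℕ) (r : ZMod (p ^ m)) : Decidable (Ex a r) := by unfold Ex; infer_instance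

theorem card_dvd {a : ℕ} (ha : a ≤ m) :
    (univ.filter fun r : ZMod (p ^ m) => p ^ a ∣ r.val).card = p ^ (m - a) := by
  have hpp : 0 < p := hp.out.pos
  have hm : p ^ a * p ^ (m - a) = p ^ m := by rw [← pow_add]; congr 1; omega
  rw [← Finset.card_range (p ^ (m - a))]
  refine Finset.card_nbij' (fun r => r.val / p ^ a) (fun v => ((p ^ a * v : ℕ) : ZMod (p ^ m)))
    ?_ ?_ ?_ ?_
  · intro r hr
    simp only [coe_range, Set.mem_Iio]
    exact Nat.div_lt_of_lt_mul (lt_of_lt_of_eq (ZMod.val_lt r) hm.symm)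
  · intro v hv
    simp only [coe_range, Set.mem_Iio] at hv
    simp only [coe_filter, mem_univ, true_and, Set.mem_ofPred_eq]
    rw [ZMod.val_natCast, Nat.mod_eq_of_lt]
    · exact dvd_mul_right _ _
    · rw [← hm]; exact Nat.mul_lt_mul_of_pos_left hv (pow_pos hpp _)
  · intro r hr
    simp only [coe_filter, mem_univ, true_and, Set.mem_ofPred_eq] at hr
    simp only
    rw [Nat.mul_div_cancel' hr]
    exact ZMod.natCast_zmod_val r
  · intro v hv
    simp only [coe_range, Set.mem_Iio] at hv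
    simp only
    rw [ZMod.val_natCast, Nat.mod_eq_of_lt]
    · exact Nat.mul_div_cancel_left _ (pow_pos hpp _)
    · rw [← hm]; exact Nat.mul_lt_mul_of_pos_left hv (pow_pos hpp _)

theorem card_Ex {a : ℕ} (ha : a < m) :
    ((univ.filter fun r : ZMod (p ^ m) => Ex a r).card : ℝ) =
      (p : ℝ) ^ m * ((1 - 1 / p) / (p : ℝ) ^ a) := by
  have hpp : (p : ℝ) ≠ 0 := by exact_mod_cast hp.out.ne_zero
  have h1 : (univ.filter fun r : ZMod (p ^ m) => Ex a r) =
      (univ.filter fun r : ZMod (p ^ m) => p ^ a ∣ r.val) \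
        (univ.filter fun r : ZMod (p ^ m) => p ^ (a + 1) ∣ r.val) := by
    ext r
    simp only [mem_filter, mem_sdiff, mem_univ, true_and]
    exact Iff.rfl
  have h2 : (univ.filter fun r : ZMod (p ^ m) => p ^ (a + 1) ∣ r.val) ⊆
      (univ.filter fun r : ZMod (p ^ m) => p ^ a ∣ r.val) := by
    intro r
    simp only [mem_filter, mem_univ, true_and]
    exact fun h => (pow_dvd_pow _ (by omega)).trans h
  rw [h1, Finset.cast_card_sdiff h2, card_dvd ha.le, card_dvd (show a + 1 ≤ m by omega)]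
  have e1 : (p : ℝ) ^ m = (p : ℝ) ^ a * (p : ℝ) ^ (m - (a + 1)) * p := by
    rw [← pow_add, ← pow_succ]; congr 1; omega
  have e2 : (p : ℝ) ^ (m - a) = (p : ℝ) ^ (m - (a + 1)) * p := by
    rw [← pow_succ]; congr 1; omega
  push_cast
  rw [e1, e2]
  field_simp

/-- reduction modulo `p` -/
noncomputable def red (hm : m ≠ 0) : ZMod (p ^ m) →+* ZMod p := ZMod.castHom (dvd_pow_self p hm) (ZMod p)

theorem red_eq_zero (hm : m ≠ 0) (r : ZMod (p ^ m)) : red hm r = 0 ↔ p ∣ r.val := by
  rw [← ZMod.natCast_eq_zero_iff]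
  conv_lhs => rw [← ZMod.natCast_zmod_val r]
  rw [map_natCast]

theorem Ex_zero (hm : m ≠ 0) (r : ZMod (p ^ m)) : Ex 0 r ↔ red hm r ≠ 0 := by
  rw [Ne, red_eq_zero]; simp [Ex]

theorem red_of_Ex (hm : m ≠ 0) {a : ℕ} (ha : a ≠ 0) {r : ZMod (p ^ m)} (h : Ex a r) :
    red hm r = 0 := by
  rw [red_eq_zero]; exact (dvd_pow_self p ha).trans h.1

theorem card_red (hm : m ≠ 0) (t : ZMod p) :
    ((univ.filter fun r : ZMod (p ^ m) => red hm r = t).card : ℝ) = (p : ℝ) ^ m / p := by
  have hpp : (p : ℝ) ≠ 0 := by exact_mod_cast hp.out.ne_zero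
  obtain ⟨s, hs⟩ : ∃ s : ZMod (p ^ m), red hm s = t :=
    ZMod.castHom_surjective (dvd_pow_self p hm) t
  have h0 : (univ.filter fun r : ZMod (p ^ m) => red hm r = t).card =
      (univ.filter fun r : ZMod (p ^ m) => p ^ 1 ∣ r.val).card := by
    refine Finset.card_nbij' (fun r => r - s) (fun r => r + s) ?_ ?_ ?_ ?_
    · intro r hr
      simp only [coe_filter, mem_univ, true_and, Set.mem_ofPred_eq, pow_one] at hr ⊢
      rw [← red_eq_zero hm, map_sub, hr, hs, sub_self]
    · intro r hr
      simp only [coe_filter, mem_univ, true_and, Set.mem_ofPred_eq, pow_one] at hr ⊢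
      rw [← red_eq_zero hm] at hr
      rw [map_add, hr, hs, zero_add]
    · intro r _; simp
    · intro r _; simp
  rw [h0, card_dvd (by omega)]
  push_cast
  rw [eq_div_iff hpp, ← pow_succ]
  congr 1; omega

/-- the proportion of the vectors of `j` units modulo `p` with sum `t` -/
noncomputable def UV (j : ℕ) (t : ZMod p) : ℝ :=
  (((p : ℝ) - 1) ^ j + (-1) ^ j * ((if t = 0 then (p : ℝ) else 0) - 1)) / (p : ℝ) ^ j

theorem UV_zero (j : ℕ) : UV j (0 : ZMod p) = uu p j := by
  unfold UV uu; simp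

theorem UV_succ (hm : m ≠ 0) (j : ℕ) (t : ZMod p) :
    ∑ r : ZMod (p ^ m), (if red hm r ≠ 0 then UV j (t - red hm r) else 0) =
      (p : ℝ) ^ m * UV (j + 1) t := by
  have hpp : (p : ℝ) ≠ 0 := by exact_mod_cast hp.out.ne_zero
  have h1 : ∑ r : ZMod (p ^ m), (if red hm r ≠ 0 then UV j (t - red hm r) else 0) =
      ∑ u : ZMod p, ((p : ℝ) ^ m / p) * (if u ≠ 0 then UV j (t - u) else 0) := by
    rw [← Finset.sum_fiberwise (s := univ) (g := fun r : ZMod (p ^ m) => red hm r)]
    refine Finset.sum_congr rfl fun u _ => ?_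
    rw [Finset.sum_congr rfl (g := fun _ => (if u ≠ 0 then UV j (t - u) else 0))]
    · rw [Finset.sum_const, nsmul_eq_mul, card_red]
    · intro r hr
      rw [mem_filter] at hr
      rw [hr.2]
  rw [h1, ← Finset.mul_sum, ← Finset.sum_filter]
  have h2 : ∑ u ∈ univ.filter (fun u : ZMod p => u ≠ 0), UV j (t - u) =
      (((p : ℝ) - 1) * (((p : ℝ) - 1) ^ j - (-1) ^ j) +
        (-1) ^ j * (if t = 0 then 0 else (p : ℝ))) / (p : ℝ) ^ j := by
    have hcard : ((univ.filter fun u : ZMod p => u ≠ 0).card : ℝ) = (p : ℝ) - 1 := by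
      rw [Finset.filter_ne' univ (0 : ZMod p), Finset.card_erase_of_mem (mem_univ _),
        Finset.card_univ, ZMod.card, Nat.cast_sub hp.out.one_le, Nat.cast_one]
    have h3 : ∀ u : ZMod p, UV j (t - u) = (((p : ℝ) - 1) ^ j - (-1) ^ j) / (p : ℝ) ^ j +
        (-1) ^ j / (p : ℝ) ^ j * (if u = t then (p : ℝ) else 0) := by
      intro u
      unfold UV
      have : (t - u = 0) ↔ (u = t) := by rw [sub_eq_zero]; exact eq_comm
      rw [if_congr this rfl rfl]
      ring
    rw [Finset.sum_congr rfl fun u _ => h3 u, Finset.sum_add_distrib, Finset.sum_const,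
      nsmul_eq_mul, hcard, ← Finset.mul_sum]
    have h4 : ∑ u ∈ univ.filter (fun u : ZMod p => u ≠ 0), (if u = t then (p : ℝ) else 0) =
        if t = 0 then 0 else (p : ℝ) := by
      rw [Finset.sum_ite_eq']
      simp
    rw [h4]
    ring
  rw [h2]
  unfold UV
  by_cases ht : t = 0
  · simp only [ht, if_true]
    field_simp
    ring
  · simp only [ht, if_false]
    field_simp
    ring

/-- the number of the vectors with orders `a` and sum `s` -/
noncomputable def NN {n : ℕ} (a : Fin n → ℕ) (s : ZMod (p ^ m)) : ℝ :=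
  ∑ z : Fin n → ZMod (p ^ m), if (∀ i, Ex (a i) (z i)) ∧ ∑ i, z i = s then 1 else 0

theorem NN_succ {n : ℕ} (a : Fin (n + 1) → ℕ) (s : ZMod (p ^ m)) :
    NN a s = ∑ r : ZMod (p ^ m), if Ex (a 0) r then NN (Fin.tail a) (s - r) else 0 := by
  unfold NN
  rw [← Fintype.sum_equiv (Fin.consEquiv (fun _ => ZMod (p ^ m)))
    (fun x => if (∀ i, Ex (a i) ((Fin.cons x.1 x.2 : Fin (n + 1) → ZMod (p ^ m)) i)) ∧
      ∑ i, (Fin.cons x.1 x.2 : Fin (n + 1) → ZMod (p ^ m)) i = s then (1 : ℝ) else 0) _
    (fun x => rfl), Fintype.sum_prod_type]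
  refine Finset.sum_congr rfl fun r _ => ?_
  by_cases h : Ex (a 0) r
  · rw [if_pos h]
    refine Finset.sum_congr rfl fun z _ => ?_
    have : ((∀ i, Ex (a i) ((Fin.cons r z : Fin (n + 1) → ZMod (p ^ m)) i)) ∧
      ∑ i, (Fin.cons r z : Fin (n + 1) → ZMod (p ^ m)) i = s) ↔
      ((∀ i, Ex (Fin.tail a i) (z i)) ∧ ∑ i, z i = s - r) := by
      rw [Fin.forall_fin_succ, Fin.sum_univ_succ]
      simp only [Fin.cons_zero, Fin.cons_succ, Fin.tail, h, true_and]
      rw [eq_sub_iff_add_eq']
    exact if_congr this rfl rfl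
  · rw [if_neg h]
    refine Finset.sum_eq_zero fun z _ => ?_
    rw [if_neg]
    rintro ⟨h1, -⟩
    exact h (by simpa using h1 0)

/-- the product of the proportions of the orders -/
noncomputable def WW (p : ℕ) {n : ℕ} (a : Fin n → ℕ) : ℝ :=
  ∏ i, if a i = 0 then 1 else (1 - 1 / (p : ℝ)) / (p : ℝ) ^ a i

theorem NN_total {n : ℕ} (a : Fin n → ℕ) (ha : ∀ i, a i < m) (ha0 : ∀ i, a i ≠ 0) :
    ∑ z : Fin n → ZMod (p ^ m), (if (∀ i, Ex (a i) (z i)) then (1 : ℝ) else 0) =
      ((p : ℝ) ^ m) ^ n * WW p a := by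
  have h1 : ∀ z : Fin n → ZMod (p ^ m), (if (∀ i, Ex (a i) (z i)) then (1 : ℝ) else 0) =
      ∏ i, if Ex (a i) (z i) then (1 : ℝ) else 0 := by
    intro z
    split_ifs with h
    · exact (Finset.prod_eq_one fun i _ => if_pos (h i)).symm
    · push Not at h
      obtain ⟨i, hi⟩ := h
      exact (Finset.prod_eq_zero (mem_univ i) (if_neg hi)).symm
  rw [Finset.sum_congr rfl fun z _ => h1 z, ← Fintype.piFinset_univ,
    ← Finset.prod_univ_sum (t := fun _ => univ)
      (f := fun i (r : ZMod (p ^ m)) => if Ex (a i) r then (1 : ℝ) else 0)]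
  have h2 : ∀ i, ∑ r : ZMod (p ^ m), (if Ex (a i) r then (1 : ℝ) else 0) =
      (p : ℝ) ^ m * (if a i = 0 then 1 else (1 - 1 / (p : ℝ)) / (p : ℝ) ^ a i) := by
    intro i
    rw [if_neg (ha0 i), ← card_Ex (ha i), Finset.sum_boole]
  rw [Finset.prod_congr rfl fun i _ => h2 i, Finset.prod_mul_distrib, Finset.prod_const,
    Finset.card_univ, Fintype.card_fin]
  rfl

theorem NN_eq (hm : m ≠ 0) : ∀ {n : ℕ} (a : Fin n → ℕ) (_ : ∀ i, a i < m) (_ : ∃ i, a i = 0)
    (s : ZMod (p ^ m)), NN a s = ((p : ℝ) ^ m) ^ (n - 1) * WW p a *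
      UV (univ.filter fun i => a i = 0).card (red hm s)
  | 0, _, _, ⟨i, _⟩, _ => i.elim0
  | n + 1, a, ha, h0, s => by
    have hpp : (p : ℝ) ≠ 0 := by exact_mod_cast hp.out.ne_zero
    have hW : WW p a = (if a 0 = 0 then 1 else (1 - 1 / (p : ℝ)) / (p : ℝ) ^ a 0) *
        WW p (Fin.tail a) := by
      unfold WW; rw [Fin.prod_univ_succ]; rfl
    have hc : (univ.filter fun i => a i = 0).card =
        (if a 0 = 0 then 1 else 0) + (univ.filter fun i => Fin.tail a i = 0).card := by
      rw [Finset.card_filter, Finset.card_filter, Fin.sum_univ_succ]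
      rfl
    have hta : ∀ i, Fin.tail a i < m := fun i => ha _
    rw [NN_succ]
    by_cases h1 : ∃ i, Fin.tail a i = 0
    · have hn : n ≠ 0 := by
        rintro rfl
        obtain ⟨i, _⟩ := h1
        exact i.elim0
      have ih := NN_eq hm (Fin.tail a) hta h1
      have hpow : ((p : ℝ) ^ m) ^ (n + 1 - 1) = (p : ℝ) ^ m * ((p : ℝ) ^ m) ^ (n - 1) := by
        rw [← pow_succ']; congr 1; omega
      by_cases ha0 : a 0 = 0
      · rw [hW, hc, if_pos ha0, if_pos ha0, one_mul, add_comm 1, hpow]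
        have h2 : ∀ r : ZMod (p ^ m), (if Ex (a 0) r then NN (Fin.tail a) (s - r) else 0) =
            ((p : ℝ) ^ m) ^ (n - 1) * WW p (Fin.tail a) * (if red hm r ≠ 0 then
              UV (univ.filter fun i => Fin.tail a i = 0).card (red hm s - red hm r) else 0) := by
          intro r
          rw [ha0, if_congr (Ex_zero hm r) rfl rfl, ih, map_sub]
          split_ifs <;> simp
        rw [Finset.sum_congr rfl fun r _ => h2 r, ← Finset.mul_sum, UV_succ]
        ring
      · rw [hW, hc, if_neg ha0, if_neg ha0, zero_add, hpow]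
        have h2 : ∀ r : ZMod (p ^ m), (if Ex (a 0) r then NN (Fin.tail a) (s - r) else 0) =
            (if Ex (a 0) r then (1 : ℝ) else 0) * (((p : ℝ) ^ m) ^ (n - 1) * WW p (Fin.tail a) *
              UV (univ.filter fun i => Fin.tail a i = 0).card (red hm s)) := by
          intro r
          split_ifs with h
          · rw [ih, map_sub, red_of_Ex hm ha0 h, sub_zero, one_mul]
          · rw [zero_mul]
        rw [Finset.sum_congr rfl fun r _ => h2 r, ← Finset.sum_mul, Finset.sum_boole,
          card_Ex (ha 0)]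
        ring
    · have ha0 : a 0 = 0 := by
        obtain ⟨i, hi⟩ := h0
        by_contra h
        rcases Fin.eq_zero_or_eq_succ i with rfl | ⟨j, rfl⟩
        · exact h hi
        · exact h1 ⟨j, hi⟩
      push Not at h1
      have hemp : (univ.filter fun i => Fin.tail a i = 0) = ∅ :=
        Finset.filter_eq_empty_iff.mpr fun i _ => h1 i
      rw [hW, hc, if_pos ha0, if_pos ha0, one_mul, hemp, Finset.card_empty, add_zero,
        Nat.add_sub_cancel, ← NN_total _ hta h1, Finset.sum_mul]
      unfold NN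
      have h3 : ∀ r : ZMod (p ^ m), (if Ex (a 0) r then
          ∑ z : Fin n → ZMod (p ^ m), (if (∀ i, Ex (Fin.tail a i) (z i)) ∧ ∑ i, z i = s - r
            then (1 : ℝ) else 0) else 0) = ∑ z : Fin n → ZMod (p ^ m),
            (if (∀ i, Ex (Fin.tail a i) (z i)) then (1 : ℝ) else 0) *
              (if r = s - ∑ i, z i then (if red hm r ≠ 0 then 1 else 0) else 0) := by
        intro r
        rw [ha0, if_congr (Ex_zero hm r) rfl rfl]
        by_cases h : red hm r ≠ 0
        · rw [if_pos h]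
          refine Finset.sum_congr rfl fun z _ => ?_
          have : (∑ i, z i = s - r) ↔ (r = s - ∑ i, z i) := by
            constructor
            · intro h; rw [h]; ring
            · intro h; rw [h]; ring
          rw [if_pos h]
          by_cases h4 : ∀ i, Ex (Fin.tail a i) (z i)
          · by_cases h5 : r = s - ∑ i, z i
            · rw [if_pos ⟨h4, this.mpr h5⟩, if_pos h4, if_pos h5, one_mul]
            · rw [if_neg (fun h6 => h5 (this.mp h6.2)), if_neg h5, mul_zero]
          · rw [if_neg (fun h6 => h4 h6.1), if_neg h4, zero_mul]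
        · rw [if_neg h]
          symm
          refine Finset.sum_eq_zero fun z _ => ?_
          simp [h]
      rw [Finset.sum_congr rfl fun r _ => h3 r, Finset.sum_comm]
      refine Finset.sum_congr rfl fun z _ => ?_
      rw [← Finset.mul_sum, Finset.sum_ite_eq' univ, if_pos (mem_univ _)]
      by_cases hz : ∀ i, Ex (Fin.tail a i) (z i)
      · rw [if_pos hz, one_mul, one_mul, map_sub, map_sum,
          Finset.sum_eq_zero (fun i _ => red_of_Ex hm (h1 i) (hz i)), sub_zero]
        unfold UV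
        by_cases hs : red hm s = 0
        · simp [hs]
        · simp only [hs, ne_eq, not_false_eq_true, if_true, if_false, pow_one]
          field_simp
          ring
      · rw [if_neg hz]; ring

omit hp in
theorem Ex_unique {a b : ℕ} {r : ZMod (p ^ m)} (h : Ex a r) (h' : Ex b r) : a = b := by
  refine le_antisymm ?_ ?_
  · by_contra hh
    exact h'.2 ((pow_dvd_pow _ (by omega)).trans h.1)
  · by_contra hh
    exact h.2 ((pow_dvd_pow _ (by omega)).trans h'.1)

theorem dvd_val {b : ℕ} (hb : b ≤ m) (z : ℤ) :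
    p ^ b ∣ ((z : ZMod (p ^ m))).val ↔ (p : ℤ) ^ b ∣ z := by
  rw [← Int.natCast_dvd_natCast, ZMod.val_intCast]
  push_cast
  have h : (p : ℤ) ^ b ∣ (p : ℤ) ^ m := pow_dvd_pow _ hb
  rw [Int.emod_def]
  constructor
  · intro h1
    have := dvd_add h1 (h.mul_right (z / (p : ℤ) ^ m))
    simpa using this
  · intro h1
    exact dvd_sub h1 (h.mul_right _)

/-- the orders of type `x` -/
def AA (n : ℕ) (x : ℕ × ℕ) : Finset (Fin n → ℕ) :=
  (Fintype.piFinset fun _ => range (x.1 + 2)).filter fun a => (∃ i, a i = 0) ∧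
    ∑ i, (a i - 1) = x.1 ∧ (univ.filter fun i => a i ≠ 0).card - 1 = x.2

theorem mem_AA {n : ℕ} {x : ℕ × ℕ} {a : Fin n → ℕ} : a ∈ AA n x ↔ (∃ i, a i = 0) ∧
    ∑ i, (a i - 1) = x.1 ∧ (univ.filter fun i => a i ≠ 0).card - 1 = x.2 := by
  unfold AA
  rw [mem_filter, and_iff_right_iff_imp]
  rintro ⟨-, h, -⟩
  rw [Fintype.mem_piFinset]
  intro i
  have : a i - 1 ≤ x.1 := by
    rw [← h]
    exact Finset.single_le_sum (f := fun i => a i - 1) (fun _ _ => Nat.zero_le _) (mem_univ i)
  rw [mem_range]; omega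

theorem AA_lt {n : ℕ} {x : ℕ × ℕ} {a : Fin n → ℕ} (h : a ∈ AA n x) (i : Fin n) : a i < x.1 + 2 := by
  unfold AA at h
  rw [mem_filter, Fintype.mem_piFinset] at h
  exact mem_range.mp (h.1 i)

theorem sum_co {R : Type} [AddCommGroup R] {d : ℕ} (y : Fin d → R) : ∑ i, co y i = 0 := by
  unfold co
  rw [Fin.sum_univ_castSucc]
  simp

theorem co_inj {R : Type} [AddCommGroup R] {d : ℕ} : Function.Injective (co : (Fin d → R) → _) := by
  intro y y' h
  funext i
  have := congrFun h i.castSucc
  simpa [co] using this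

theorem co_init {R : Type} [AddCommGroup R] {d : ℕ} (z : Fin (d + 1) → R) (hz : ∑ i, z i = 0) :
    co (fun i : Fin d => z i.castSucc) = z := by
  rw [Fin.sum_univ_castSucc] at hz
  funext i
  refine Fin.lastCases ?_ (fun j => ?_) i
  · simp only [co, Fin.snoc_last]
    exact (eq_neg_of_add_eq_zero_right hz).symm
  · simp [co]

omit hp in
theorem cast_co {d : ℕ} (y : Fin d → ℤ) (i : Fin (d + 1)) :
    ((co y i : ℤ) : ZMod (p ^ m)) = co (fun i => ((y i : ℤ) : ZMod (p ^ m))) i := by
  refine Fin.lastCases ?_ (fun j => ?_) i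
  · simp [co]
  · simp [co]

theorem ncard_eq {d : ℕ} (x : ℕ × ℕ) (hx : x.1 + 2 ≤ m) :
    (({c : Fin d → ZMod (p ^ m) | ∃ y : Fin d → ℤ, (∀ i, ((y i : ℤ) : ZMod (p ^ m)) = c i) ∧
      Typ p x (co y)}.ncard : ℕ) : ℝ) = ∑ a ∈ AA (d + 1) x, NN a (0 : ZMod (p ^ m)) := by
  classical
  have h1 : ∀ a ∈ AA (d + 1) x, NN a (0 : ZMod (p ^ m)) = (((univ.filter fun z :
      Fin (d + 1) → ZMod (p ^ m) => (∀ i, Ex (a i) (z i)) ∧ ∑ i, z i = 0).card : ℕ) : ℝ) := by
    intro a _
    unfold NN
    rw [Finset.sum_boole]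
  rw [Finset.sum_congr rfl h1, ← Nat.cast_sum, ← Finset.card_biUnion]
  swap
  · intro a _ b _ hab
    rw [Function.onFun, Finset.disjoint_left]
    intro z hz hz'
    rw [mem_filter] at hz hz'
    exact hab (funext fun i => Ex_unique (hz.2.1 i) (hz'.2.1 i))
  rw [← Set.ncard_image_of_injective _ co_inj, ← Set.ncard_coe_finset]
  congr 2
  ext z
  simp only [Set.mem_image, Set.mem_ofPred_eq, mem_coe, mem_biUnion, mem_filter, mem_univ, true_and]
  constructor
  · rintro ⟨c, ⟨y, hy, a, ha, h0, he, hf⟩, rfl⟩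
    have hA : a ∈ AA (d + 1) x := mem_AA.mpr ⟨h0, he, hf⟩
    refine ⟨a, hA, fun i => ?_, sum_co c⟩
    have hi := AA_lt hA i
    have hcy : (fun i => ((y i : ℤ) : ZMod (p ^ m))) = c := funext hy
    rw [← hcy, ← cast_co]
    refine ⟨(dvd_val (by omega) _).mpr (ha i).1, fun h => (ha i).2 ((dvd_val (by omega) _).mp h)⟩
  · rintro ⟨a, hA, hE, hs⟩
    refine ⟨fun i => z i.castSucc, ⟨fun i => ((z i.castSucc).val : ℤ), fun i => by simp, a, ?_,
      mem_AA.mp hA⟩, co_init z hs⟩
    intro i
    have hi := AA_lt hA i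
    have hco : ((co (fun i : Fin d => ((z i.castSucc).val : ℤ)) i : ℤ) : ZMod (p ^ m)) = z i := by
      rw [cast_co]
      have : (fun i : Fin d => ((((z i.castSucc).val : ℤ) : ℤ) : ZMod (p ^ m))) =
          fun i => z i.castSucc := by
        funext i; simp
      rw [this, co_init z hs]
    have := hE i
    rw [← hco] at this
    exact ⟨(dvd_val (by omega) _).mp this.1, fun h => this.2 ((dvd_val (by omega) _).mpr h)⟩

/-- the value for `k` coordinates divisible by `p` -/
noncomputable def GG (n : ℕ) (p : ℝ) (e k : ℕ) : ℝ :=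
  (1 - 1 / p) ^ k / p ^ (e + k) * uu p (n - k)

theorem WW_eq {n : ℕ} (a : Fin n → ℕ) : WW p a = (1 - 1 / (p : ℝ)) ^
    (univ.filter fun i => a i ≠ 0).card / (p : ℝ) ^ (∑ i, (a i - 1) +
      (univ.filter fun i => a i ≠ 0).card) := by
  have hpp : (p : ℝ) ≠ 0 := by exact_mod_cast hp.out.ne_zero
  have h1 : ∑ i, (a i - 1) + (univ.filter fun i => a i ≠ 0).card = ∑ i, a i := by
    rw [Finset.card_filter, ← Finset.sum_add_distrib]
    refine Finset.sum_congr rfl fun i _ => ?_
    split_ifs with h <;> omega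
  rw [h1, ← Finset.prod_pow_eq_pow_sum]
  unfold WW
  rw [← Finset.prod_const, Finset.prod_filter, ← Finset.prod_div_distrib]
  refine Finset.prod_congr rfl fun i _ => ?_
  by_cases h : a i = 0
  · simp [h]
  · simp [h]

theorem NN_AA {n : ℕ} {x : ℕ × ℕ} (hx : x.1 + 2 ≤ m) {a : Fin n → ℕ} (ha : a ∈ AA n x) :
    NN a (0 : ZMod (p ^ m)) = ((p : ℝ) ^ m) ^ (n - 1) *
      GG n p x.1 (univ.filter fun i => a i ≠ 0).card := by
  have hm : m ≠ 0 := by omega
  have h := mem_AA.mp ha
  rw [NN_eq hm a (fun i => (AA_lt ha i).trans_le hx) h.1, map_zero, UV_zero, WW_eq, h.2.1]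
  have hc : (univ.filter fun i => a i = 0).card = n - (univ.filter fun i => a i ≠ 0).card := by
    have h2 : (univ.filter fun i => a i = 0).card + (univ.filter fun i => a i ≠ 0).card = n := by
      have := Finset.card_filter_add_card_filter_not (s := (univ : Finset (Fin n)))
        (fun i => a i = 0)
      rwa [Finset.card_univ, Fintype.card_fin] at this
    omega
  rw [hc]
  unfold GG
  ring

theorem card_fib {n : ℕ} (x : ℕ × ℕ) (K : Finset (Fin n)) (hK : K ≠ univ) (hK' : K.card - 1 = x.2) :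
    ((AA n x).filter fun a => (univ.filter fun i => a i ≠ 0) = K).card =
      (K.card + x.1 - 1).choose x.1 := by
  classical
  rw [← Finset.card_finsuppAntidiag_nat_eq_choose]
  refine Finset.card_nbij' (fun a => Finsupp.equivFunOnFinite.symm fun i => a i - 1)
    (fun g i => if i ∈ K then g i + 1 else 0) ?_ ?_ ?_ ?_
  · intro a ha
    rw [mem_coe, mem_filter, mem_AA] at ha
    obtain ⟨⟨h0, he, hf⟩, hs⟩ := ha
    rw [mem_coe, mem_finsuppAntidiag]
    refine ⟨?_, ?_⟩
    · rw [← he]
      refine Finset.sum_subset (subset_univ K) fun i _ hi => ?_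
      rw [← hs, mem_filter, not_and, not_not] at hi
      simp [hi (mem_univ i)]
    · intro i hi
      rw [← hs, mem_filter]
      refine ⟨mem_univ i, fun h => ?_⟩
      rw [Finsupp.mem_support_iff] at hi
      exact hi (by simp [h])
  · intro g hg
    rw [mem_coe, mem_finsuppAntidiag] at hg
    have hs : (univ.filter fun i => (if i ∈ K then g i + 1 else 0) ≠ 0) = K := by
      ext i
      simp
    rw [mem_coe, mem_filter, mem_AA]
    refine ⟨⟨?_, ?_, ?_⟩, hs⟩
    · by_contra h
      apply hK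
      rw [Finset.eq_univ_iff_forall]
      intro i
      by_contra hi
      exact h ⟨i, if_neg hi⟩
    · rw [← hg.1]
      symm
      have : ∀ i ∈ K, g i = (if i ∈ K then g i + 1 else 0) - 1 := by
        intro i hi; simp [hi]
      rw [Finset.sum_congr rfl this]
      refine Finset.sum_subset (subset_univ K) fun i _ hi => ?_
      simp [hi]
    · rw [hs, hK']
  · intro a ha
    rw [mem_coe, mem_filter, mem_AA] at ha
    obtain ⟨⟨h0, he, hf⟩, hs⟩ := ha
    funext i
    by_cases hi : i ∈ K
    · simp only [hi, if_true]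
      rw [← hs, mem_filter] at hi
      simp only [Finsupp.equivFunOnFinite_symm_apply_apply]
      omega
    · simp only [hi, if_false]
      rw [← hs, mem_filter, not_and, not_not] at hi
      exact (hi (mem_univ i)).symm
  · intro g hg
    rw [mem_coe, mem_finsuppAntidiag] at hg
    ext i
    simp only [Finsupp.equivFunOnFinite_symm_apply_apply]
    by_cases hi : i ∈ K
    · simp [hi]
    · have : g i = 0 := by
        by_contra h
        exact hi (hg.2 (Finsupp.mem_support_iff.mpr h))
      simp [hi, this]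

theorem sum_AA {n : ℕ} (x : ℕ × ℕ) (F : ℕ → ℝ) :
    ∑ a ∈ AA n x, F (univ.filter fun i => a i ≠ 0).card = ∑ k ∈ range (n + 1), (n.choose k : ℝ) *
      (if k < n ∧ k - 1 = x.2 then ((k + x.1 - 1).choose x.1 : ℝ) * F k else 0) := by
  classical
  have h1 : ∑ a ∈ AA n x, F (univ.filter fun i => a i ≠ 0).card =
      ∑ K : Finset (Fin n), if K.card < n ∧ K.card - 1 = x.2 then
        ((K.card + x.1 - 1).choose x.1 : ℝ) * F K.card else 0 := by
    rw [← Finset.sum_fiberwise (s := AA n x) (g := fun a => (univ.filter fun i => a i ≠ 0))]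
    refine Finset.sum_congr rfl fun K _ => ?_
    split_ifs with h
    · have hK : K ≠ univ := by
        rintro rfl
        rw [Finset.card_univ, Fintype.card_fin] at h
        omega
      rw [Finset.sum_congr rfl (g := fun _ => F K.card), Finset.sum_const, card_fib x K hK h.2,
        nsmul_eq_mul]
      intro a ha
      rw [mem_filter] at ha
      rw [ha.2]
    · refine Finset.sum_eq_zero fun a ha => ?_
      exfalso
      rw [mem_filter, mem_AA] at ha
      obtain ⟨⟨⟨i, hi⟩, he, hf⟩, hs⟩ := ha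
      rw [hs] at hf
      apply h
      refine ⟨?_, hf⟩
      have : K ⊂ univ := by
        rw [Finset.ssubset_univ_iff]
        rintro rfl
        have := mem_univ i
        rw [← hs, mem_filter] at this
        exact this.2 hi
      have := Finset.card_lt_card this
      rwa [Finset.card_univ, Fintype.card_fin] at this
  rw [h1, ← Finset.powerset_univ]
  rw [Finset.sum_powerset_apply_card (fun k => if k < n ∧ k - 1 = x.2 then
        ((k + x.1 - 1).choose x.1 : ℝ) * F k else 0), Finset.card_univ, Fintype.card_fin]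
  refine Finset.sum_congr rfl fun k _ => ?_
  rw [nsmul_eq_mul]

end

theorem uu_one (p : ℝ) (hp : p ≠ 0) : uu p 1 = 0 := by unfold uu; field_simp; ring

theorem dl_eq {n : ℕ} (hn : 3 ≤ n) (p : ℝ) (hp : p ≠ 0) (x : ℕ × ℕ) :
    ∑ k ∈ range (n + 1), (n.choose k : ℝ) *
      (if k < n ∧ k - 1 = x.2 then ((k + x.1 - 1).choose x.1 : ℝ) * GG n p x.1 k else 0) =
      dl n p x := by
  obtain ⟨e, f⟩ := x
  simp only
  rcases Nat.eq_zero_or_pos f with rfl | hf
  · rw [← Finset.sum_subset (s₁ := {0, 1})]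
    · rw [Finset.sum_pair (by norm_num), if_pos ⟨by omega, rfl⟩, if_pos ⟨by omega, rfl⟩]
      unfold dl GG
      rcases Nat.eq_zero_or_pos e with rfl | he
      · simp
        ring
      · have h1 : ((0 + e - 1).choose e : ℝ) = 0 := by
          exact_mod_cast Nat.choose_eq_zero_of_lt (by omega)
        have h2 : ¬ ((e, 0) : ℕ × ℕ) = (0, 0) := by
          intro h; rw [Prod.mk.injEq] at h; omega
        have h3 : ((1 + e - 1).choose e : ℝ) = 1 := by
          rw [show 1 + e - 1 = e by omega, Nat.choose_self, Nat.cast_one]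
        rw [h1, h3, if_neg h2, if_pos (by simpa using hn)]
        simp
        ring
    · intro k hk
      simp only [mem_insert, mem_singleton] at hk
      rw [mem_range]; omega
    · intro k hk hk'
      simp only [mem_insert, mem_singleton] at hk'
      rw [if_neg (by omega), mul_zero]
  · have h2 : ¬ ((e, f) : ℕ × ℕ) = (0, 0) := by
      intro h; rw [Prod.mk.injEq] at h; omega
    unfold dl
    rw [if_neg h2]
    by_cases hfn : f + 1 < n
    · rw [Finset.sum_eq_single (f + 1)]
      · rw [if_pos ⟨hfn, by omega⟩]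
        by_cases h3 : f + 3 ≤ n
        · rw [if_pos (show ((e, f) : ℕ × ℕ).2 + 3 ≤ n from h3)]
          simp only
          unfold GG
          have : (f + 1 + e - 1).choose e = (e + f).choose f := by
            rw [show f + 1 + e - 1 = e + f by omega]
            exact Nat.choose_symm_add.symm ▸ rfl
          rw [this, show n - (f + 1) = n - f - 1 by omega, show e + (f + 1) = e + f + 1 by omega]
          ring
        · rw [if_neg (show ¬ ((e, f) : ℕ × ℕ).2 + 3 ≤ n from h3)]
          unfold GG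
          rw [show n - (f + 1) = 1 by omega, uu_one p hp]
          ring
      · intro k hk hk'
        rw [if_neg (by omega), mul_zero]
      · intro h
        rw [mem_range] at h
        omega
    · rw [if_neg (show ¬ ((e, f) : ℕ × ℕ).2 + 3 ≤ n by simp only; omega)]
      refine Finset.sum_eq_zero fun k hk => ?_
      rw [if_neg (by omega), mul_zero]

theorem loc : S_LOC := by
  intro d p hd hp x m hm
  have : Fact p.Prime := ⟨hp⟩
  have hpp : (p : ℝ) ≠ 0 := by exact_mod_cast hp.ne_zero
  rw [ncard_eq x hm, Finset.sum_congr rfl fun a ha => NN_AA hm ha, ← Finset.mul_sum,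
    sum_AA x (fun k => GG (d + 1) p x.1 k), dl_eq (by omega) _ hpp, Nat.add_sub_cancel]
  ring

end Pool.Agent.P8H10.JN
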